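import Mathlib
import Pool.Agent.Q252.ED2

/-!
# MP_891d15_co, Q1: the answer is no

`e2 s I` is the second elementary symmetric value of the subsequence of `s` with index set `I`,
`Forced n l` says that every sequence of length `l` over `ZMod n` has a subsequence with at least
two terms and value `0`, and `D n` is the least such `l`, that is the constant
$D^{(2)}_{e_2}(\mathbb Z_n)$ of the problem.

The sequence of `70` copies of `1` and `4` copies of `3/2` over `ZMod 73` has no such
subsequence, so `D 73 ≥ 75`. In general `p - 1 - r` copies of `1` and `s` copies of `(r+1)/2`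
work whenever `1 + (r ^ 2 - 1) k` is a nonsquare modulo `p` for `2 ≤ k ≤ s`; with `r = 6`,
`s = 23` and Dirichlet's theorem this gives `D p ≥ p + 17` for infinitely many primes
`p ≡ 1 (mod 4)`.
-/

namespace Pool.Agent.Results.MP_891d15_co.FailsAtSeventyThree

open Pool.Agent.Q252.ED1

theorem result :
    -- the statement of Q1 is false
    (¬ ∀ p : ℕ, p.Prime → p % 4 = 1 → D p = p + 1) ∧
    -- it fails at 73
    75 ≤ D 73 ∧
    -- and the difference to `p` is at least 17 for infinitely many primes `p ≡ 1 (mod 4)`
    {p : ℕ | p.Prime ∧ p % 4 = 1 ∧ p + 17 ≤ D p}.Infinite ∧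
    -- a lower bound for every odd prime
    (∀ p r s : ℕ, p.Prime → p ≠ 2 → r + 1 ≤ p →
      (∀ k : ℕ, 2 ≤ k → k ≤ s → ¬ IsSquare (1 + ((r : ZMod p) ^ 2 - 1) * k)) →
        p + s ≤ D p + r) ∧
    -- `D p` is indeed the least length with the property of the definition
    (∀ p : ℕ, p.Prime → p ≠ 2 → Forced p (D p) ∧ ∀ l < D p, ¬ Forced p l) := by
  refine ⟨fun h => ?_, p73, infinite17, fun p r s hp hp2 hr hns => criterion hp hp2 hr hns,
    fun p hp hp2 => ⟨Nat.sInf_mem (s := {l | Forced p l}) ⟨p * p, forced_sq hp hp2⟩,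
      fun l hl hF => Nat.notMem_of_lt_sInf hl hF⟩⟩
  have h1 := h 73 (by norm_num) (by norm_num)
  have h2 := p73
  omega

end Pool.Agent.Results.MP_891d15_co.FailsAtSeventyThree
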